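import Pool.Agent.TH801.LU.Sav
import Pool.Agent.TH801.LU.Cnt2
import Pool.Agent.TH801.LR.Main

/-! Long linear forms in ordinates near an arbitrary target: the count in terms of the savings. -/

set_option autoImplicit false

open Finset MeasureTheory Complex
open scoped ComplexConjugate

namespace Pool.Agent.V7H60.LU

open Pool.Agent.TH801.LR (Sx Sx_le)
open Pool.Agent.TH801.LU (count2 rangeI rangeII sav2)

/-- the sum of the squares of all coefficients but `c i0`, relative to `c i1` -/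
noncomputable def WW {n : ℕ} (c : Fin n → ℝ) (i0 i1 : Fin n) : ℝ :=
  ∑ k ∈ univ.erase i0, (c k / c i1) ^ 2

lemma WW_abs {n : ℕ} (c : Fin n → ℝ) (i0 i1 : Fin n) :
    WW c i0 i1 = ∑ k ∈ univ.erase i0, (c k / |c i1|) ^ 2 := by
  unfold WW
  refine sum_congr rfl fun k _ => ?_
  rw [div_pow, div_pow, sq_abs]

lemma WW_rest {n : ℕ} (c : Fin n → ℝ) (i0 i1 : Fin n) (h01 : i0 ≠ i1) (hb : 0 < |c i1|) :
    WW c i0 i1 = 1 + ∑ k ∈ (univ.erase i0).erase i1, (c k / |c i1|) ^ 2 := by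
  rw [WW_abs, ← add_sum_erase (univ.erase i0) _ (mem_erase.2 ⟨h01.symm, mem_univ i1⟩)]
  congr 1
  rw [div_pow, sq_abs]
  exact div_self (by have := abs_pos.1 hb; positivity)

lemma one_le_WW {n : ℕ} (c : Fin n → ℝ) (i0 i1 : Fin n) (h01 : i0 ≠ i1) (hb : 0 < |c i1|) :
    1 ≤ WW c i0 i1 := by
  rw [WW_rest c i0 i1 h01 hb]
  have : 0 ≤ ∑ k ∈ (univ.erase i0).erase i1, (c k / |c i1|) ^ 2 := sum_nonneg fun _ _ => sq_nonneg _
  linarith

lemma sum_sq_eq {n : ℕ} (c : Fin n → ℝ) (i0 i1 : Fin n) (hb : 0 < |c i1|) :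
    ∑ k ∈ univ.erase i0, c k ^ 2 = |c i1| ^ 2 * WW c i0 i1 := by
  rw [WW_abs, mul_sum]
  refine sum_congr rfl fun k _ => ?_
  rw [div_pow]
  field_simp

lemma num_core (X E0 E Y a κ T L b W P N Q Z κ1 κ3 η' t : ℝ) (hX : X * E ≤ 4 / Real.sqrt a * Z +
      88 * (P * N) * (κ1 * E0 + κ3 * E) * Q) (hκ : 0 < κ) (hT : 0 < T) (hL : 0 < L) (hb : 0 < b)
    (hW : 1 ≤ W) (hY : 1 ≤ Y) (ha : a = 2 * κ ^ 2 * T ^ 2 * (b ^ 2 * W))
    (hE0 : E0 = L / (2 * Real.pi * b)) (hE : E = E0 * Y) (ht : t = T * L)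
    (hη' : 0 < η') (hP : 0 ≤ P) (htN : t ≤ N) (hQ : 0 ≤ Q) (hZ : (η' * N) * ((η' * N) * Q) ≤ Z)
    (hκ1 : 0 ≤ κ1) (hκ3 : 0 ≤ κ3) (hκ1' : κ1 ≤ 1 / (2 * κ) * (1 / Real.sqrt W)) :
    X ≤ (26 / κ * (1 / Real.sqrt W * (1 / Y)) +
      88 * P / η' ^ 2 * (1 / (2 * κ) * (1 / Real.sqrt W) * (1 / Y) + κ3)) * Z / t := by
  have hpi0 := Real.pi_pos
  have hpi4 : Real.pi ≤ 3.25 := by have := Real.pi_lt_d2; linarith
  have ht0 : 0 < t := by rw [ht]; positivity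
  have hN0 : 0 < N := ht0.trans_le htN
  have hW0 : 0 < W := by linarith
  have hY0 : 0 < Y := by linarith
  have hE00 : 0 < E0 := by rw [hE0]; positivity
  have hEpos : 0 < E := by rw [hE]; positivity
  have hZ0 : 0 ≤ Z := le_trans (by positivity) hZ
  have hsW : 0 < Real.sqrt W := Real.sqrt_pos.2 hW0
  have hsa : κ * T * b * Real.sqrt W ≤ Real.sqrt a := by
    apply Real.le_sqrt_of_sq_le
    rw [mul_pow, Real.sq_sqrt hW0.le, ha]
    have : 0 ≤ κ ^ 2 * T ^ 2 * (b ^ 2 * W) := by positivity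
    nlinarith
  have hsa0 : 0 < κ * T * b * Real.sqrt W := by positivity
  have hNQ : N * Q ≤ Z / (η' ^ 2 * t) := by
    rw [le_div_iff₀ (by positivity)]
    have h3 : N * Q * (η' ^ 2 * t) ≤ N * Q * (η' ^ 2 * N) := by gcongr
    refine h3.trans (le_trans (le_of_eq ?_) hZ)
    ring
  -- first term
  have h1 : 4 / Real.sqrt a ≤ E * (26 / κ * (1 / Real.sqrt W * (1 / Y)) / t) := by
    have h2 : 4 / Real.sqrt a ≤ 4 / (κ * T * b * Real.sqrt W) :=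
      div_le_div_of_nonneg_left (by norm_num) hsa0 hsa
    refine h2.trans ?_
    have h3 : E * (26 / κ * (1 / Real.sqrt W * (1 / Y)) / t) =
        (26 / (2 * Real.pi)) / (κ * T * b * Real.sqrt W) := by
      rw [hE, hE0, ht]
      field_simp
    rw [h3]
    apply div_le_div_of_nonneg_right _ hsa0.le
    rw [le_div_iff₀ (by positivity)]
    linarith
  have h2 : 88 * (P * N) * (κ1 * E0 + κ3 * E) * Q ≤
      E * (88 * P / η' ^ 2 * (1 / (2 * κ) * (1 / Real.sqrt W) * (1 / Y) + κ3) * Z / t) := by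
    have h3 : κ1 * E0 + κ3 * E ≤ E * (1 / (2 * κ) * (1 / Real.sqrt W) * (1 / Y) + κ3) := by
      have h4 : κ1 * E0 ≤ 1 / (2 * κ) * (1 / Real.sqrt W) * E0 :=
        mul_le_mul_of_nonneg_right hκ1' hE00.le
      have h5 : E0 = E * (1 / Y) := by rw [hE]; field_simp
      calc κ1 * E0 + κ3 * E ≤ 1 / (2 * κ) * (1 / Real.sqrt W) * E0 + κ3 * E := by linarith
        _ = 1 / (2 * κ) * (1 / Real.sqrt W) * (E * (1 / Y)) + κ3 * E := by rw [← h5]
        _ = _ := by ring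
    have h6 : 0 ≤ κ1 * E0 + κ3 * E := by positivity
    calc 88 * (P * N) * (κ1 * E0 + κ3 * E) * Q = 88 * P * (κ1 * E0 + κ3 * E) * (N * Q) := by ring
      _ ≤ 88 * P * (κ1 * E0 + κ3 * E) * (Z / (η' ^ 2 * t)) := by gcongr
      _ ≤ 88 * P * (E * (1 / (2 * κ) * (1 / Real.sqrt W) * (1 / Y) + κ3)) *
          (Z / (η' ^ 2 * t)) := by gcongr
      _ = _ := by field_simp
  have h3 : X * E ≤ ((26 / κ * (1 / Real.sqrt W * (1 / Y)) +
      88 * P / η' ^ 2 * (1 / (2 * κ) * (1 / Real.sqrt W) * (1 / Y) + κ3)) * Z / t) * E := by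
    refine hX.trans ?_
    have h4 := mul_le_mul_of_nonneg_right h1 hZ0
    refine (add_le_add h4 h2).trans (le_of_eq ?_)
    ring
  exact le_of_mul_le_mul_right h3 hEpos

/-- the count in terms of the savings -/
lemma core {n : ℕ} (c : Fin n → ℝ) (A : Fin n → Finset ℝ) (Γ : Finset ℝ) (N P L T κ η' t : ℝ)
    (hL : 0 < L) (hT : 0 < T) (ht : t = T * L) (htN : t ≤ N) (hP0 : 0 ≤ P)
    (hP : ∑ x ∈ Γ, ∑ y ∈ Γ, 1 / (1 + (L * (x - y)) ^ 2) ≤ P * N)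
    (hA : ∀ i, A i ⊆ Γ) (hη' : 0 < η') (hAη : ∀ i, η' * N ≤ (A i).card)
    (i0 i1 : Fin n) (h01 : i0 ≠ i1) (h10 : |c i1| ≤ |c i0|) (hb : 0 < |c i1|)
    (hmax : ∀ k, k ≠ i0 → |c k| ≤ |c i1|)
    (hκ0 : 0 < κ) (hκ : κ ≤ 1 / 8) (h10' : 10 ≤ κ * (T * L))
    (hone : ∀ k, ∀ v : ℝ, |v| ≤ κ * L → ‖Sx (A k) (2 * Real.pi * v)‖ ≤
      (A k).card * Real.exp (-(2 * κ ^ 2 * min 1 ((v * T) ^ 2))))
    (Y κ3 w y : ℝ) (hY : 1 ≤ Y) (hκ3 : 0 ≤ κ3) (hw : w ≤ |c i1| / (L * Y))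
    (hcl : ∀ u : ℝ, κ * L / |c i1| < |u| → |u| ≤ L / (2 * Real.pi * |c i1|) * Y →
      ∏ i ∈ (univ.erase i0).erase i1, ‖Sx (A i) (2 * Real.pi * c i * u)‖ ≤
        κ3 * ∏ i ∈ (univ.erase i0).erase i1, ((A i).card : ℝ)) :
    (((Fintype.piFinset A).filter (fun x : Fin n → ℝ => |∑ i, c i * x i - y| ≤ w)).card : ℝ) ≤
      (26 / κ * (1 / Real.sqrt (WW c i0 i1) * (1 / Y)) + 88 * P / η' ^ 2 *
        (1 / (2 * κ) * (1 / Real.sqrt (WW c i0 i1)) * (1 / Y) + κ3)) *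
          (∏ i, ((A i).card : ℝ)) / t := by
  classical
  have hpi0 := Real.pi_pos
  have hpi4 : Real.pi ≤ 3.25 := by have := Real.pi_lt_d2; linarith
  obtain ⟨b, hbdef⟩ : ∃ b, b = |c i1| := ⟨_, rfl⟩
  rw [← hbdef] at hb hmax h10 hw hcl
  obtain ⟨E0, hE0⟩ : ∃ E0, E0 = L / (2 * Real.pi * b) := ⟨_, rfl⟩
  rw [← hE0] at hcl
  have hW1 : 1 ≤ WW c i0 i1 := one_le_WW c i0 i1 h01 (by rwa [← hbdef])
  have hE00 : 0 < E0 := by rw [hE0]; positivity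
  have hEE : E0 ≤ E0 * Y := le_mul_of_one_le_right hE00.le hY
  have hEpos : 0 < E0 * Y := by positivity
  obtain ⟨a, ha⟩ : ∃ a, a = 2 * κ ^ 2 * T ^ 2 * ∑ i ∈ univ.erase i0, c i ^ 2 := ⟨_, rfl⟩
  have ha' : a = 2 * κ ^ 2 * T ^ 2 * (b ^ 2 * WW c i0 i1) := by
    rw [ha, sum_sq_eq c i0 i1 (by rwa [← hbdef]), hbdef]
  have ha0 : 0 < a := by rw [ha']; positivity
  have hU : κ * L / b ≤ E0 := by
    rw [hE0, div_le_div_iff₀ hb (by positivity)]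
    have : κ * (2 * Real.pi) ≤ 1 := by nlinarith
    calc κ * L * (2 * Real.pi * b) = (κ * (2 * Real.pi)) * (L * b) := by ring
      _ ≤ 1 * (L * b) := mul_le_mul_of_nonneg_right this (by positivity)
      _ = _ := by ring
  have hcnt := count2 c A Γ N P L hL hP hA i0 i1 h01 b h10 (by rw [hbdef]) (1 / (b * T))
    (κ * L / b) E0 (E0 * Y) a (Real.exp (-(2 * κ ^ 2 * ∑ i ∈ (univ.erase i0).erase i1,
      (c i / b) ^ 2))) κ3 y hE00 hU hEE (le_of_eq (by rw [hE0]; field_simp)) ha0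
    (Real.exp_pos _).le hκ3 (by
      intro u hu
      rw [ha]
      exact rangeI A c i0 b T L κ hb hT hL h10' hmax hone u hu) (by
      intro u hu1 hu2
      exact rangeII A c i0 i1 b T L κ hb hT hmax hone u hu1 hu2) (by
      intro u hu1 hu2
      exact hcl u hu1 hu2)
  have hrest : ∑ i ∈ (univ.erase i0).erase i1, (c i / b) ^ 2 = WW c i0 i1 - 1 := by
    rw [WW_rest c i0 i1 h01 (by rwa [← hbdef]), ← hbdef]
    ring
  rw [hrest] at hcnt
  have h2 : (((Fintype.piFinset A).filter (fun x : Fin n → ℝ =>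
      |∑ i, c i * x i - y| ≤ w)).card : ℝ) ≤
      (((Fintype.piFinset A).filter (fun x : Fin n → ℝ =>
        |∑ i, c i * x i - y| ≤ 1 / (2 * Real.pi * (E0 * Y)))).card : ℝ) := by
    have : (Fintype.piFinset A).filter (fun x : Fin n → ℝ => |∑ i, c i * x i - y| ≤ w) ⊆
        (Fintype.piFinset A).filter (fun x : Fin n → ℝ =>
          |∑ i, c i * x i - y| ≤ 1 / (2 * Real.pi * (E0 * Y))) := by
      intro x hx
      rw [mem_filter] at hx ⊢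
      refine ⟨hx.1, hx.2.trans (hw.trans (le_of_eq ?_))⟩
      rw [hE0]
      field_simp
    exact_mod_cast card_le_card this
  refine h2.trans ?_
  have hN0 : 0 < N := by
    have : 0 < t := by rw [ht]; positivity
    linarith
  have hQ0 : 0 ≤ ∏ i ∈ (univ.erase i0).erase i1, ((A i).card : ℝ) :=
    prod_nonneg fun _ _ => Nat.cast_nonneg _
  refine num_core _ E0 (E0 * Y) Y a κ T L b (WW c i0 i1) P N _ _ _ κ3 η' t hcnt hκ0 hT hL hb hW1 hY
    ha' hE0 rfl ht hη' hP0 htN hQ0 ?_ (Real.exp_pos _).le hκ3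
    (sav2 κ (WW c i0 i1) hκ0 (by linarith) hW1)
  rw [← mul_prod_erase univ _ (mem_univ i0),
      ← mul_prod_erase (univ.erase i0) _ (mem_erase.2 ⟨h01.symm, mem_univ i1⟩)]
  exact mul_le_mul (hAη i0) (mul_le_mul_of_nonneg_right (hAη i1) hQ0)
    (mul_nonneg (mul_pos hη' hN0).le hQ0) (Nat.cast_nonneg _)

end Pool.Agent.V7H60.LU
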