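import Pool.Agent.V7H60.LU.Core

/-! Long linear forms in ordinates near an arbitrary target: the theorem. -/

set_option autoImplicit false

open Finset MeasureTheory Complex
open scoped ComplexConjugate

namespace Pool.Agent.V7H60.LU

open Pool.Agent.TH801.LR (Sx Sx_le z1 z2 z3 cluster Om wm mem_Om wm_one cl cl_range cl_near
  card_rest step2)
open Pool.Agent.TH801.LU (one paramC sav3 freq2)
open Pool.Agent.H452R4.LI.ZCaux (pt pt_re pt_im pt_inj small_finite)

lemma ind_le (L x : ℝ) (hL : 0 < L) :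
    (if |x| ≤ 1 / L then (1 : ℝ) else 0) ≤ 2 * (1 / (1 + (L * x) ^ 2)) := by
  split_ifs with h
  · have h1 : (L * x) ^ 2 ≤ 1 := by
      rw [← sq_abs, abs_mul, abs_of_pos hL]
      apply pow_le_one₀ (by positivity)
      rw [le_div_iff₀ hL] at h
      linarith
    have h2 : 1 / 2 ≤ 1 / (1 + (L * x) ^ 2) :=
      one_div_le_one_div_of_le (by positivity) (by linarith)
    linarith
  · positivity

/-- the numerical part of the final step -/
lemma fin_num (X κ B Y W κ3 m Z t K R1 ε δ : ℝ) (h : X ≤ (26 / κ * (1 / Real.sqrt W * (1 / Y)) +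
      B * (1 / (2 * κ) * (1 / Real.sqrt W) * (1 / Y) + κ3)) * Z / t)
    (hκ : 0 < κ) (hB : 0 ≤ B) (hZ : 0 ≤ Z) (ht : 0 < t) (hm : 0 < m)
    (hY : 1 / Y ≤ R1 * (1 / m)) (hW : 1 ≤ W)
    (hκ3 : κ3 ≤ 8 / ε * (1 / m) * Real.exp (-(δ * m)))
    (hK1 : 26 / κ * R1 + B * (1 / (2 * κ) * R1) ≤ K) (hK2 : B * (8 / ε) ≤ K) :
    X ≤ K / m * (1 / Real.sqrt W + Real.exp (-(δ * m))) * Z / t := by
  refine h.trans ?_
  apply div_le_div_of_nonneg_right _ ht.le
  apply mul_le_mul_of_nonneg_right _ hZ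
  have hsW : 0 < Real.sqrt W := Real.sqrt_pos.2 (by linarith)
  have hs0 : 0 ≤ 1 / Real.sqrt W := by positivity
  have hexp := (Real.exp_pos (-(δ * m))).le
  have h1 : 26 / κ * (1 / Real.sqrt W * (1 / Y)) ≤ 26 / κ * (1 / Real.sqrt W * (R1 * (1 / m))) := by
    gcongr
  have h2 : B * (1 / (2 * κ) * (1 / Real.sqrt W) * (1 / Y) + κ3) ≤
      B * (1 / (2 * κ) * (1 / Real.sqrt W) * (R1 * (1 / m)) +
        8 / ε * (1 / m) * Real.exp (-(δ * m))) := by
    gcongr
  refine (add_le_add h1 h2).trans ?_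
  have e1 : 26 / κ * (1 / Real.sqrt W * (R1 * (1 / m))) +
      B * (1 / (2 * κ) * (1 / Real.sqrt W) * (R1 * (1 / m)) +
        8 / ε * (1 / m) * Real.exp (-(δ * m))) =
      (26 / κ * R1 + B * (1 / (2 * κ) * R1)) * ((1 / m) * (1 / Real.sqrt W)) +
        (B * (8 / ε)) * ((1 / m) * Real.exp (-(δ * m))) := by ring
  rw [e1]
  have h3 : (26 / κ * R1 + B * (1 / (2 * κ) * R1)) * ((1 / m) * (1 / Real.sqrt W)) ≤
      K * ((1 / m) * (1 / Real.sqrt W)) := mul_le_mul_of_nonneg_right hK1 (by positivity)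
  have h4 : (B * (8 / ε)) * ((1 / m) * Real.exp (-(δ * m))) ≤
      K * ((1 / m) * Real.exp (-(δ * m))) := mul_le_mul_of_nonneg_right hK2 (by positivity)
  refine (add_le_add h3 h4).trans (le_of_eq ?_)
  ring

/-- few distinct coefficients -/
lemma fin_small (X κ B W m m1 Z t K δ : ℝ) (h : X ≤ (26 / κ * (1 / Real.sqrt W * (1 / 1)) +
      B * (1 / (2 * κ) * (1 / Real.sqrt W) * (1 / 1) + 1)) * Z / t)
    (hκ : 0 < κ) (hB : 0 ≤ B) (hZ : 0 ≤ Z) (ht : 0 < t) (hm : 0 < m) (hm1 : m ≤ m1) (hδ : 0 ≤ δ)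
    (hW : 1 ≤ W) (hK : (26 / κ + B * (1 / (2 * κ) + 1)) * (m1 * Real.exp (δ * m1)) ≤ K) :
    X ≤ K / m * (1 / Real.sqrt W + Real.exp (-(δ * m))) * Z / t := by
  have hm10 : 0 ≤ m1 := hm.le.trans hm1
  have hK0 : 0 ≤ K := le_trans (by positivity) hK
  refine h.trans ?_
  apply div_le_div_of_nonneg_right _ ht.le
  apply mul_le_mul_of_nonneg_right _ hZ
  have hs1 : 1 ≤ Real.sqrt W := by rw [Real.one_le_sqrt]; exact hW
  have hs0 : 1 / Real.sqrt W ≤ 1 := by
    rw [div_le_one (by linarith)]; exact hs1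
  have hs00 : 0 ≤ 1 / Real.sqrt W := by positivity
  have h1 : 26 / κ * (1 / Real.sqrt W * (1 / 1)) +
      B * (1 / (2 * κ) * (1 / Real.sqrt W) * (1 / 1) + 1) ≤ 26 / κ + B * (1 / (2 * κ) + 1) := by
    have e1 : 26 / κ * (1 / Real.sqrt W * (1 / 1)) ≤ 26 / κ * 1 := by
      rw [div_one, mul_one]; gcongr
    have e2 : B * (1 / (2 * κ) * (1 / Real.sqrt W) * (1 / 1) + 1) ≤ B * (1 / (2 * κ) * 1 + 1) := by
      rw [div_one, mul_one (1 / (2 * κ) * (1 / Real.sqrt W))]; gcongr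
    linarith
  refine h1.trans ?_
  set G := 26 / κ + B * (1 / (2 * κ) + 1) with hG
  have hG0 : 0 ≤ G := by positivity
  have h2 : G ≤ K / m * Real.exp (-(δ * m)) := by
    have h3 : G * (m * Real.exp (δ * m)) ≤ K := by
      refine le_trans ?_ hK
      gcongr
    rw [Real.exp_neg, div_mul_eq_mul_div, le_div_iff₀ hm, ← div_eq_mul_inv,
      le_div_iff₀ (Real.exp_pos _)]
    linarith
  have h4 : 0 ≤ K / m * (1 / Real.sqrt W) := by positivity
  calc G ≤ K / m * Real.exp (-(δ * m)) := h2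
    _ ≤ K / m * (1 / Real.sqrt W) + K / m * Real.exp (-(δ * m)) := by linarith
    _ = _ := by ring

theorem main (hRH : RiemannHypothesis) (η : ℝ) (hη : 0 < η) : ∃ K δ : ℝ, 0 < K ∧ 0 < δ ∧
    ∀ θ : ℝ, 0 < θ → ∃ T₀ : ℝ, ∀ T : ℝ, T₀ ≤ T →
    ∀ (n : ℕ) (c : Fin n → ℝ) (A : Fin n → Finset ℝ),
      (∀ i j k, c i ≠ c j → |c k| * Real.log T ^ (θ - 1) ≤ |c i - c j|) →
      (∀ i, ∀ γ ∈ A i, 0 < γ ∧ γ ≤ T ∧ riemannZeta (pt γ) = 0) →
      (∀ i, η * (T * Real.log T) ≤ (A i).card) →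
      ∀ i0 i1, i0 ≠ i1 → |c i1| ≤ |c i0| → (∀ k, k ≠ i0 → |c k| ≤ |c i1|) → c i1 ≠ 0 → ∀ y : ℝ,
      (((Fintype.piFinset A).filter (fun x : Fin n → ℝ => |∑ k, c k * x k - y| ≤
        |c i1| / ((univ.image c).card * Real.log T))).card : ℝ) ≤
      K / (univ.image c).card * (1 / Real.sqrt (WW c i0 i1) +
        Real.exp (-(δ * (univ.image c).card))) * (∏ k, ((A k).card : ℝ)) / (T * Real.log T) := by
  classical
  have hpi0 := Real.pi_pos
  obtain ⟨C1, hC1, hz1⟩ := z1 hRH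
  obtain ⟨P, T3, hP, hT3, hz3⟩ := z3 hRH
  have hC10 : 0 < C1 := by linarith
  set η' : ℝ := min (η / C1) 1 with hη'
  have hη'0 : 0 < η' := lt_min (by positivity) one_pos
  obtain ⟨KF, q, ε, hKF, hε, hε1, hclu⟩ := cluster η' hη'0 (min_le_right _ _)
  obtain ⟨m1, hm12, hpar⟩ := paramC q KF hKF
  -- the constant of one frequency
  set P2 : ℝ := 2 * P + η ^ 2 with hP2
  have hP20 : 0 < P2 := by positivity
  set κ : ℝ := η ^ 2 / (76 * P2) with hκ
  have hκ0 : 0 < κ := by positivity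
  have hκ8 : κ ≤ 1 / 8 := by
    rw [hκ, div_le_div_iff₀ (by positivity) (by norm_num)]
    nlinarith
  set B : ℝ := 88 * P / η' ^ 2 with hB
  have hB0 : 0 < B := by positivity
  set R1 : ℝ := 16 * KF * (q + 1) with hR1
  have hR10 : 0 < R1 := by
    have : (1 : ℝ) ≤ KF := by exact_mod_cast hKF
    positivity
  set δ : ℝ := ε / 8 with hδ
  have hδ0 : 0 < δ := by positivity
  set G1 : ℝ := 26 / κ * R1 + B * (1 / (2 * κ) * R1) with hG1
  set G2 : ℝ := B * (8 / ε) with hG2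
  set G3 : ℝ := (26 / κ + B * (1 / (2 * κ) + 1)) * (m1 * Real.exp (δ * m1)) with hG3
  have hG10 : 0 < G1 := by positivity
  have hG20 : 0 < G2 := by positivity
  have hG30 : 0 ≤ G3 := by positivity
  refine ⟨G1 + G2 + G3, δ, by positivity, hδ0, fun θ hθ => ?_⟩
  obtain ⟨T2, hT2, hz2⟩ := z2 hRH (θ / 2) ε (by positivity) hε
  -- largeness
  have hev1 : ∀ᶠ T : ℝ in Filter.atTop, 10 ≤ κ * (T * Real.log T) := by
    have h1 : Filter.Tendsto (fun T : ℝ => κ * (T * Real.log T)) Filter.atTop Filter.atTop :=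
      Filter.Tendsto.const_mul_atTop hκ0 (Filter.tendsto_id.atTop_mul_atTop₀ Real.tendsto_log_atTop)
    exact h1.eventually_ge_atTop 10
  have hev2 : ∀ᶠ T : ℝ in Filter.atTop,
      Real.log T ^ (θ / 2) ≤ 2 * Real.pi * (κ * Real.log T ^ θ) := by
    have h1 : Filter.Tendsto (fun T : ℝ => Real.log T ^ (θ / 2)) Filter.atTop Filter.atTop :=
      (tendsto_rpow_atTop (by positivity)).comp Real.tendsto_log_atTop
    filter_upwards [h1.eventually_ge_atTop (1 / (2 * Real.pi * κ)),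
      Real.tendsto_log_atTop.eventually_gt_atTop 0] with T h2 h3
    rw [div_le_iff₀ (by positivity)] at h2
    have h4 : Real.log T ^ θ = Real.log T ^ (θ / 2) * Real.log T ^ (θ / 2) := by
      rw [← Real.rpow_add h3]; congr 1; ring
    have h5 : 0 ≤ Real.log T ^ (θ / 2) := by positivity
    rw [h4]
    nlinarith
  obtain ⟨T4, hT4⟩ := Filter.eventually_atTop.1 (hev1.and hev2)
  refine ⟨max (max T2 T3) T4, ?_⟩
  intro T hT n c A hgap hA hAc i0 i1 h01 h10 hmax hci1 y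
  have hTT2 : T2 ≤ T := ((le_max_left _ _).trans (le_max_left _ _)).trans hT
  have hTT3 : T3 ≤ T := ((le_max_right _ _).trans (le_max_left _ _)).trans hT
  obtain ⟨h10T, hlowT⟩ := hT4 T ((le_max_right _ _).trans hT)
  have hT100 : 100 ≤ T := hT3.trans hTT3
  have hT0 : 0 < T := by linarith
  have hL1 : 1 ≤ Real.log T := by
    rw [Real.le_log_iff_exp_le hT0]
    have := Real.exp_one_lt_d9
    linarith
  set m := (univ.image c).card with hm
  set L := Real.log T with hL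
  have hL0 : 0 < L := by linarith
  set t := T * L with ht
  have ht0 : 0 < t := by positivity
  set N := C1 * t with hN
  have hN0 : 0 < N := by positivity
  have htN : t ≤ N := by
    rw [hN]
    exact le_mul_of_one_le_left ht0.le hC1
  have hwm : ∀ x ∈ Om T, 1 ≤ wm x := fun x hx =>
    wm_one (mem_Om.1 hx).1 (mem_Om.1 hx).2.2
  have hwN : ∑ x ∈ Om T, wm x ≤ N := hz1 T (by linarith)
  have hAO : ∀ k, A k ⊆ Om T := fun k γ hγ => mem_Om.2 (hA k γ hγ)
  have hAη : ∀ k, η' * N ≤ (A k).card := by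
    intro k
    refine le_trans ?_ (hAc k)
    have h1 : η' ≤ η / C1 := min_le_left _ _
    calc η' * N ≤ η / C1 * N := mul_le_mul_of_nonneg_right h1 hN0.le
      _ = η * t := by rw [hN]; field_simp
  have hPt : ∑ x ∈ Om T, ∑ y ∈ Om T, 1 / (1 + (L * (x - y)) ^ 2) ≤ P * t := hz3 T hTT3
  have hPN : ∑ x ∈ Om T, ∑ y ∈ Om T, 1 / (1 + (L * (x - y)) ^ 2) ≤ P * N :=
    hPt.trans (mul_le_mul_of_nonneg_left htN hP.le)
  -- one frequency
  have hone : ∀ k, ∀ v : ℝ, |v| ≤ κ * L → ‖Sx (A k) (2 * Real.pi * v)‖ ≤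
      (A k).card * Real.exp (-(2 * κ ^ 2 * min 1 ((v * T) ^ 2))) := by
    intro k v hv
    refine one (A k) L T P2 η κ hL0 hT0 hP20 hη hκ (by linarith) h10T
      (fun y hy => ⟨(hA k y hy).1, (hA k y hy).2.1⟩) ?_ (hAc k) v hv
    have h1 : ∀ x y : ℝ, (if |x - y| ≤ 1 / L then (1 : ℝ) else 0) ≤
        2 * (1 / (1 + (L * (x - y)) ^ 2)) := fun x y => ind_le L (x - y) hL0
    have hnn : ∀ x y : ℝ, 0 ≤ 1 / (1 + (L * (x - y)) ^ 2) := fun x y => by positivity
    calc ∑ x ∈ A k, ∑ y ∈ A k, (if |x - y| ≤ 1 / L then (1 : ℝ) else 0) ≤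
        ∑ x ∈ A k, ∑ y ∈ A k, 2 * (1 / (1 + (L * (x - y)) ^ 2)) :=
          sum_le_sum fun x _ => sum_le_sum fun y _ => h1 x y
      _ = 2 * ∑ x ∈ A k, ∑ y ∈ A k, 1 / (1 + (L * (x - y)) ^ 2) := by
          rw [mul_sum]; exact sum_congr rfl fun x _ => by rw [mul_sum]
      _ ≤ 2 * ∑ x ∈ Om T, ∑ y ∈ Om T, 1 / (1 + (L * (x - y)) ^ 2) := by
          refine mul_le_mul_of_nonneg_left ?_ (by norm_num)
          refine (sum_le_sum fun x _ => sum_le_sum_of_subset_of_nonneg (hAO k)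
            fun y _ _ => hnn x y).trans ?_
          exact sum_le_sum_of_subset_of_nonneg (hAO k) fun x _ _ => sum_nonneg fun y _ => hnn x y
      _ ≤ 2 * (P * t) := by linarith
      _ ≤ P2 * t := by
          rw [hP2]
          have : 0 ≤ η ^ 2 * t := by positivity
          linarith
  have hb : 0 < |c i1| := abs_pos.2 hci1
  have hW1 := one_le_WW c i0 i1 h01 hb
  have hZ0 : 0 ≤ ∏ k, ((A k).card : ℝ) := prod_nonneg fun _ _ => Nat.cast_nonneg _
  have hm1n : 1 ≤ m := by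
    rw [hm]
    exact Finset.card_pos.2 ⟨c i0, mem_image_of_mem _ (mem_univ _)⟩
  have hm0 : (0 : ℝ) < m := by exact_mod_cast hm1n
  have hm1r : (1 : ℝ) ≤ m := by exact_mod_cast hm1n
  by_cases hmm : m1 ≤ m
  · -- many distinct coefficients
    obtain ⟨M, hM1, hY1, hYm, hYR, hS⟩ := hpar m hmm
    set Y := (M : ℝ) / (4 * KF) with hY
    set rest := (univ.erase i0).erase i1 with hrest
    have hVc : m ≤ (rest.image c).card + 2 := card_rest c i0 i1
    have hVb : ∀ v ∈ rest.image c, |v| ≤ |c i1| := by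
      intro v hv
      obtain ⟨k, hk, rfl⟩ := mem_image.1 hv
      exact hmax k (mem_erase.1 (mem_erase.1 hk).2).1
    set κ3 : ℝ := (1 - ε) ^ ((rest.image c).card - q * (M + 1)) with hκ3
    have hκ30 : 0 ≤ κ3 := pow_nonneg (by linarith) _
    have hsav := sav3 ε hε hε1 ((rest.image c).card - q * (M + 1)) m hm0 (hS _ hVc)
    have hst := core c A (Om T) N P L T κ η' t hL0 hT0 ht htN hP.le hPN hAO hη'0 hAη i0 i1 h01 h10
      hb hmax hκ0 hκ8 h10T hone Y κ3 (|c i1| / (m * L)) y hY1 hκ30 (by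
        rw [div_le_div_iff₀ (by positivity) (by positivity)]
        calc |c i1| * (L * Y) ≤ |c i1| * (L * m) := by gcongr
          _ = _ := by ring) (by
        intro u hu1 hu2
        refine step2 c A (Om T) wm N η' ε KF q hN0 hwm hwN hε hε1 hclu
          (fun k => ⟨hAO k, hAη k⟩) i0 rest (rest.image c) (Subset.refl _)
          (cl |c i1| M) (M + 1) (fun v hv => cl_range _ hb M v (hVb v hv)) u ?_
        intro v hv v' hv' hvv hcell k hk hkK
        obtain ⟨a, _, ha⟩ := mem_image.1 hv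
        obtain ⟨a', _, ha'⟩ := mem_image.1 hv'
        have hg : |c i1| * L ^ (θ - 1) ≤ |v - v'| := by
          rw [← ha, ← ha']
          apply hgap
          rw [ha, ha']
          exact hvv
        obtain ⟨f1, f2⟩ := freq2 |c i1| L θ Y v v' u κ (1 / 2) KF KF M hb hL1 hKF hM1 hκ0
          (by linarith) hY hg (cl_near _ hb M hM1 v v' (hVb v hv) (hVb v' hv') hcell) hu1 hu2
          hlowT k hk hkK
        have := hz2 T hTT2 _ f1 f2
        exact this.trans (mul_le_mul_of_nonneg_left htN hε.le))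
    refine fin_num _ κ B Y (WW c i0 i1) κ3 m _ t _ R1 ε δ hst hκ0 hB0.le hZ0 ht0 hm0 hYR hW1 ?_
      ?_ ?_
    · rw [hδ]; exact hsav
    · linarith
    · linarith
  · -- few distinct coefficients
    have hst := core c A (Om T) N P L T κ η' t hL0 hT0 ht htN hP.le hPN hAO hη'0 hAη i0 i1 h01 h10
      hb hmax hκ0 hκ8 h10T hone 1 1 (|c i1| / (m * L)) y le_rfl (by norm_num) (by
        rw [mul_one]
        apply div_le_div_of_nonneg_left hb.le hL0
        nlinarith) (by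
        intro u _ _
        rw [one_mul]
        exact prod_le_prod (fun i _ => norm_nonneg _) fun i _ => Sx_le _ _)
    have hmm' : (m : ℝ) ≤ m1 := by
      push Not at hmm
      exact_mod_cast hmm.le
    refine fin_small _ κ B (WW c i0 i1) m m1 _ t _ δ hst hκ0 hB0.le hZ0 ht0 hm0 hmm' hδ0.le hW1 ?_
    linarith

end Pool.Agent.V7H60.LU
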